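import Pool.Agent.Run7.h550.IP.Fin

/-!
# The isomorphism problem for graph products of infinite cyclic groups and of groups with property FA

Let `C` be a recursively enumerable class of finite presentations with solvable isomorphism problem,
all of whose groups have property FA of Serre, trivial centre, and are directly indecomposable. For
instance, `C` can be the class of non-trivial torsion-free hyperbolic groups with property (T) (recursively
enumerable by Papasoglu and Ozawa; isomorphism problem: Sela, Dahmani and Guirardel). Their graph
products along finite graphs, with further vertex groups `ℤ`, are hierarchically hyperbolic (Berlai and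
Robbio). We show that the isomorphism problem is solvable for the class of all graph products, along
arbitrary finite graphs, of groups in `C` and infinite cyclic groups. For `C = ∅` these are the
right-angled Artin groups (Droms). The class is closed under direct products, free products and
graph products.

The main point is the uniqueness of the decomposition: if a group is the graph product of such
vertex groups (property FA, centreless and indecomposable, or infinite cyclic) along two finite
graphs, then there is an isomorphism of the graphs which respects the isomorphism types of the
vertex groups.

**Proof of uniqueness.** (a) By Serre's theory a subgroup with property FA is conjugate into the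
subgroup of a clique, and into the product of its vertex groups with property FA, as it has no
homomorphism onto `ℤ`; with the Krull-Schmidt theorem the vertex groups with property FA of the two
decompositions are the same up to conjugation, and their adjacencies agree (they commute up to
conjugation iff they are adjacent, as one sees in the free product of two vertex groups).
(b) An element which commutes with such a vertex group `A v` has exponent `0` at each infinite
cyclic vertex which is not adjacent to `v`. (c) If `g` and `h` commute, and `a`, `b` are infinite cyclic
vertices which are not adjacent, then the exponents satisfy `g_a h_b = g_b h_a` (map to the Heisenberg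
group). So the matrices `M`, `M⁻¹` of the base change between the exponents of the two decompositions
satisfy quadratic equations for the edges and non-edges, and linear ones for the links of the
vertices with property FA. (d) Such a base change can be replaced by a permutation of the vertices
(`exists_match`): call `b` dominated by `a` if the link of `b` is contained in the star of `a`, and `b` is
adjacent to a vertex with property FA only if `a` is. The equations imply that `b` is dominated by `a`
whenever `M_aj (M⁻¹)_jb ≠ 0`. So the vertices `a` with `M_aj (M⁻¹)_ja ≠ 0` are equivalent for fixed
`j`, each class contains the right number of them, and every bijection of the vertices which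
respects the classes is an isomorphism of the graphs with links. For right-angled Artin groups this
is a short elementary proof of the theorem of Droms.

**Algorithm.** Search for an isomorphism, or for presentations of the two groups as graph products of
members of `C` and of `ℤ` together with, for each isomorphism of the graphs, a vertex at which the
vertex groups are not isomorphic by the given algorithm for `C`.
-/

set_option autoImplicit false

namespace Pool.Agent.Results.MP_32d917_al.GraphProducts

open Pool.Agent.Q223.IS Pool.Agent.Q32.DP Run7.h550.IP
open Run7.h550.TK (IsGraphProduct FA)

/-- (1) **Uniqueness.** Let the group `N` be the graph product of subgroups `A v` along a finite graph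
`Γ`, and of subgroups `B w` along a finite graph `Λ`, where all these subgroups are non-trivial, and have
property FA, are centreless and indecomposable (`Rig`), or are infinite cyclic (`Cyc`). Then there is an
isomorphism `σ` from `Γ` to `Λ` with `A v ≅ B (σ v)` for all `v`.

(2) **The isomorphism problem.** Let `C` be a recursively enumerable class of finite presentations of
groups with property FA which are centreless and directly indecomposable. If the isomorphism problem
is solvable for `C`, then it is solvable for the class `GProds C` of all finite presentations of graph
products, along finite graphs, of groups in `C` and infinite cyclic groups.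

(3) For every recursively enumerable class `C` of finite presentations, `GProds C` is recursively
enumerable, and there is an algorithm that computes from each presentation `p` in `GProds C` a
decomposition: a finite graph and presentations in `C`, or the presentation `z0` of `ℤ`, of the vertex
groups, such that the group of `p` is isomorphic to the graph product. -/
theorem result :
    (∀ (N V W : Type) [Group N] [Finite V] [Finite W] (Γ : SimpleGraph V) (Λ : SimpleGraph W)
      (A : V → Subgroup N) (B : W → Subgroup N), IsGraphProduct Γ A → IsGraphProduct Λ B →
      (∀ v, Rig (A v) ∨ Cyc (A v)) → (∀ w, Rig (B w) ∨ Cyc (B w)) →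
      (∀ v, A v ≠ ⊥) → (∀ w, B w ≠ ⊥) →
      ∃ σ : V ≃ W, (∀ u v, Γ.Adj u v ↔ Λ.Adj (σ u) (σ v)) ∧ ∀ v, Nonempty (A v ≃* B (σ v))) ∧
    (∀ C : Pres → Prop, REPred C →
      (∀ k, C k → FA (PG k) ∧ Centerless (PG k) ∧ Indecomposable (PG k)) →
      Solvable C → Solvable (GProds C)) ∧
    (∀ C : Pres → Prop, REPred C → REPred (GProds C) ∧
      ∃ d : Pres →. Dat, Partrec d ∧ ∀ p, GProds C p → ∃ z ∈ d p,
        (∀ k ∈ z.2.1, C k ∨ k = z0) ∧ ∃ A : Fin z.2.1.length → Subgroup (PG p),
          IsGraphProduct (gr z) A ∧ ∀ i, Nonempty (A i ≃* PG (z.2.1.get i))) := by
  refine ⟨fun N V W _ _ _ Γ Λ A B hA hB h1 h2 h3 h4 => gp_match hA hB h1 h2 h3 h4,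
    fun C hC hH hS => gprods_solvable C hC hH hS, fun C hC => ⟨gprods_re C hC, ?_⟩⟩
  obtain ⟨f, hf, hd, hm⟩ := Pool.Agent.Helper926.RE.uniformize
    (r := fun (p : Pres) (z : Dat) => (Good z ∧ ∀ k ∈ z.2.1, Cp C k) ∧
      Pool.Agent.Q32.DP.ALG.IsoP (p, GPc z)) (re_dec hC)
  refine ⟨f, hf, fun p hp => ?_⟩
  obtain ⟨z, h1, h2, h3⟩ := exists_dat hp
  have hdom : (f p).Dom := (hd p).2 ⟨z, ⟨h1, h2⟩, ⟨h3⟩⟩
  have hg := Part.get_mem hdom
  obtain ⟨⟨g1, g2⟩, ⟨⟨e⟩⟩⟩ := hm _ _ hg
  refine ⟨_, hg, g2, ?_⟩
  obtain ⟨A, hA, hAi⟩ := code_gp g1
  refine ⟨_, gp_transport hA e.symm, fun i => ?_⟩
  obtain ⟨c⟩ := hAi i
  exact ⟨((A i).equivMapOfInjective e.symm.toMonoidHom e.symm.injective).symm.trans c⟩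

end Pool.Agent.Results.MP_32d917_al.GraphProducts
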